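import Pool.Agent.Helper28.MT.Goals3

/-!
# Project MT3 (MP_bb782b_co): packet MT3-STEPW3 (real costs)

`G_STEPW3` from `G_STEPN3`, `G_ABS`: the real weights are multiplied by a large number `Q` and
rounded up.
-/

set_option autoImplicit false

namespace Pool.Agent.Helper9.MT3

open Finset
open Pool.Agent.Helper55.Rota
open Pool.Agent.Helper28.MT
open Pool.Agent.Helper28.MT3

/-- The labels of the pool of level `l` of the set `j`. -/
def Aw (j l : ℕ) : Finset ℕ := Ico ((j / 2 ^ l + 2) * 2 ^ l) ((j / 2 ^ l + 3) * 2 ^ l)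

theorem mem_Aw {j l r : ℕ} (hr : r ∈ Aw j l) : r / 2 ^ l = j / 2 ^ l + 2 := by
  have h := mem_Ico.mp hr
  have h2 : 0 < 2 ^ l := by positivity
  apply le_antisymm
  · exact Nat.lt_succ_iff.mp ((Nat.div_lt_iff_lt_mul h2).mpr h.2)
  · exact (Nat.le_div_iff_mul_le h2).mpr h.1

theorem card_Aw (j l : ℕ) : (Aw j l).card = 2 ^ l := by
  unfold Aw
  have : (j / 2 ^ l + 3) * 2 ^ l = (j / 2 ^ l + 2) * 2 ^ l + 2 ^ l := by ring
  rw [Nat.card_Ico, this, Nat.add_sub_cancel_left]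

/-- The labels of the pool of level `l` with a weight at most `cm w j l` (level `0`: the label
`j + 2`). -/
noncomputable def Lw (w : ℕ → ℝ) (j l : ℕ) : Finset ℕ :=
  if l = 0 then {j + 2} else (Aw j l).filter (fun r => w r ≤ cm w j l)

theorem half (w : ℕ → ℝ) (j l : ℕ) (hw : ∀ r, 0 ≤ w r) (hc : 0 < cm w j l) :
    2 ^ l ≤ 2 * ((Aw j l).filter (fun r => w r ≤ cm w j l)).card := by
  have hsum : ∑ r ∈ Aw j l, w r = 2 ^ l / 2 * cm w j l := by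
    unfold cm
    have h2 : (2 : ℝ) ^ l ≠ 0 := by positivity
    field_simp
    rfl
  have h1 : (((Aw j l).filter (fun r => ¬ w r ≤ cm w j l)).card : ℝ) * cm w j l ≤
      ∑ r ∈ Aw j l, w r := by
    calc _ = ∑ r ∈ (Aw j l).filter (fun r => ¬ w r ≤ cm w j l), cm w j l := by
          rw [sum_const, nsmul_eq_mul]
      _ ≤ ∑ r ∈ (Aw j l).filter (fun r => ¬ w r ≤ cm w j l), w r :=
          sum_le_sum fun r hr => (not_le.mp (mem_filter.mp hr).2).le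
      _ ≤ _ := sum_le_sum_of_subset_of_nonneg (filter_subset _ _) (fun r _ _ => hw r)
  have h2 : (2 : ℝ) * ((Aw j l).filter (fun r => ¬ w r ≤ cm w j l)).card ≤ 2 ^ l := by
    rw [hsum] at h1
    have := le_of_mul_le_mul_right h1 hc
    linarith
  have h3 : 2 * ((Aw j l).filter (fun r => ¬ w r ≤ cm w j l)).card ≤ 2 ^ l := by
    exact_mod_cast h2
  have h4 := Finset.card_filter_add_card_filter_not (s := Aw j l) (fun r => w r ≤ cm w j l)
  rw [card_Aw] at h4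
  omega

theorem exists_scale (s : ℕ) (c : ℕ → ℝ) (hc : ∀ l, 1 ≤ l → l ≤ s → 0 < c l) :
    ∃ Q : ℝ, 1 ≤ Q ∧ ∀ l, 1 ≤ l → l ≤ s → 1 ≤ Q * c l := by
  have hpos : ∀ l ∈ Icc 1 s, 0 < (c l)⁻¹ := fun l hl =>
    inv_pos.mpr (hc l (mem_Icc.mp hl).1 (mem_Icc.mp hl).2)
  refine ⟨1 + ∑ i ∈ Icc 1 s, (c i)⁻¹, ?_, ?_⟩
  · have := Finset.sum_nonneg (fun i hi => (hpos i hi).le)
    linarith
  · intro l h1 h2
    have hl : l ∈ Icc 1 s := mem_Icc.mpr ⟨h1, h2⟩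
    have h3 : (c l)⁻¹ ≤ ∑ i ∈ Icc 1 s, (c i)⁻¹ :=
      Finset.single_le_sum (f := fun i => (c i)⁻¹) (fun i hi => (hpos i hi).le) hl
    have hcl := hc l h1 h2
    calc (1 : ℝ) = (c l)⁻¹ * c l := by rw [inv_mul_cancel₀ hcl.ne']
      _ ≤ _ := mul_le_mul_of_nonneg_right (by linarith) hcl.le

/-- The exponent `E`. -/
theorem exists_exp {g : ℝ} (hg : 0 ≤ g) :
    ∃ E : ℕ, 1 ≤ E ∧ g + 2 ≤ 2 ^ E ∧ (2 : ℝ) ^ E ≤ 2 * (g + 2) := by
  obtain ⟨m, hm⟩ := pow_unbounded_of_one_lt (g + 2) (by norm_num : (1 : ℝ) < 2)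
  classical
  let P : ℕ → Prop := fun m => g + 2 ≤ (2 : ℝ) ^ m
  have hex : ∃ m, P m := ⟨m, hm.le⟩
  have h1 : P (Nat.find hex) := Nat.find_spec hex
  have h0 : 1 ≤ Nat.find hex := by
    by_contra h
    have h2 : Nat.find hex = 0 := by omega
    rw [h2] at h1
    have h3 : g + 2 ≤ (2 : ℝ) ^ 0 := h1
    norm_num at h3
    linarith
  refine ⟨Nat.find hex, h0, h1, ?_⟩
  have h2 : ¬ P (Nat.find hex - 1) := Nat.find_min hex (by omega)
  have h3 : (2 : ℝ) ^ (Nat.find hex - 1) < g + 2 := not_le.mp h2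
  have h4 : (2 : ℝ) ^ Nat.find hex = 2 * 2 ^ (Nat.find hex - 1) := by
    rw [← pow_succ']
    congr 1
    omega
  rw [h4]
  linarith

theorem lt_top {s j l r : ℕ} (hj : j < 2 ^ s) (hl : l ≤ s) (hr : r / 2 ^ l = j / 2 ^ l + 2) :
    r < 2 ^ (s + 2) := by
  have h2 : 0 < 2 ^ l := by positivity
  have h1 : j / 2 ^ l < 2 ^ (s - l) := by
    rw [Nat.div_lt_iff_lt_mul h2, ← pow_add, Nat.sub_add_cancel hl]
    exact hj
  have h3 : r / 2 ^ l < 2 ^ (s - l) * 4 := by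
    have : 1 ≤ 2 ^ (s - l) := Nat.one_le_two_pow
    omega
  rw [Nat.div_lt_iff_lt_mul h2] at h3
  calc r < 2 ^ (s - l) * 4 * 2 ^ l := h3
    _ = 2 ^ (s - l + l) * 4 := by rw [pow_add]; ring
    _ = 2 ^ (s + 2) := by rw [Nat.sub_add_cancel hl, pow_add]; norm_num

theorem mt3_stepw3 : G_STEPN3 → G_ABS → G_STEPW3 := by
  intro hN hABS α _ _ R n k h s b t a f j V w hk hn hnk hkh hhk hs hsh hhs hj hSet hLab hV hVt
    hw hw0 hwp hcm
  have hcmp : ∀ l, 1 ≤ l → l ≤ s → 0 < cm w j l := by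
    intro l h1 h2
    have h3 := (hcm l h1 h2).1
    by_contra h4
    have h5 : (8 : ℝ) ^ (s - l) * cm w j l ≤ 0 :=
      mul_nonpos_of_nonneg_of_nonpos (by positivity) (not_lt.mp h4)
    linarith
  obtain ⟨Q, hQ1, hQc⟩ := exists_scale s (cm w j) hcmp
  have hQ : 0 < Q := by linarith
  have hk0 : (0 : ℝ) < k := by exact_mod_cast (by omega : 0 < k)
  let C : α → ℕ := fun x => if 2 ^ (s + 2) ≤ f x then ⌈64 * Q⌉₊ else ⌈Q * w (f x)⌉₊
  let c0 : ℕ → ℕ := fun l => if l = 0 then 0 else ⌈Q * cm w j l⌉₊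
  let Ct : ℕ := ⌈64 * Q⌉₊
  have H1 : ∀ l ≤ s, (∀ r ∈ Lw w j l, r / 2 ^ l = j / 2 ^ l + 2) ∧
      2 ^ l ≤ 2 * (Lw w j l).card ∧ ∀ x, f x ∈ Lw w j l → C x ≤ c0 l := by
    intro l hl
    by_cases h0 : l = 0
    · subst h0
      refine ⟨?_, ?_, ?_⟩
      · intro r hr
        have : r = j + 2 := by simpa [Lw] using hr
        simp [this]
      · simp [Lw]
      · intro x hx
        have hx' : f x = j + 2 := by simpa [Lw] using hx
        have h1 : ¬ 2 ^ (s + 2) ≤ f x := by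
          have := lt_top (s := s) (l := 0) (r := f x) hj hl (by simp [hx'])
          omega
        have h2 : C x = ⌈Q * w (f x)⌉₊ := if_neg h1
        rw [h2, hx', hw0, mul_zero]
        simp
    · have hLl : Lw w j l = (Aw j l).filter (fun r => w r ≤ cm w j l) := if_neg h0
      rw [hLl]
      refine ⟨fun r hr => mem_Aw (mem_filter.mp hr).1, half w j l hw (hcmp l (by omega) hl), ?_⟩
      intro x hx
      have hx' := mem_filter.mp hx
      have h1 : ¬ 2 ^ (s + 2) ≤ f x := by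
        have := lt_top (s := s) (l := l) (r := f x) hj hl (mem_Aw hx'.1)
        omega
      have h2 : C x = ⌈Q * w (f x)⌉₊ := if_neg h1
      have h3 : c0 l = ⌈Q * cm w j l⌉₊ := if_neg h0
      rw [h2, h3]
      exact Nat.ceil_mono (mul_le_mul_of_nonneg_left hx'.2 hQ.le)
  have H2 : ∀ l, 1 ≤ l → l ≤ s → 1 ≤ c0 l := by
    intro l h1 h2
    have h3 : c0 l = ⌈Q * cm w j l⌉₊ := if_neg (by omega)
    rw [h3]
    exact Nat.ceil_pos.mpr (mul_pos hQ (hcmp l h1 h2))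
  have H3 : ∀ x ∈ tp s f, C x ≤ Ct := by
    intro x hx
    have h1 : 2 ^ (s + 2) ≤ f x := (mem_filter.mp hx).2
    exact le_of_eq (if_pos h1)
  obtain ⟨T, G, hT1, hT2, hT3, hT4, hT5, hT6⟩ := hN α R n k h s b t a f j V C (Lw w j) c0 Ct hk hn
    hnk hkh hhk hs hsh hj hSet hLab hV hVt H1 (if_pos rfl) H2 H3
  refine ⟨T, hT1, hT2, hT3, ?_⟩
  set g : ℝ := (G : ℝ) / (k * Q) with hg
  have hkQ : 0 < (k : ℝ) * Q := mul_pos hk0 hQ
  have hg0 : 0 ≤ g := div_nonneg (Nat.cast_nonneg _) hkQ.le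
  have hGg : (G : ℝ) = g * (k * Q) := by rw [hg, div_mul_cancel₀ _ hkQ.ne']
  -- the real cost
  have hcost : ∑ x ∈ T, (if 2 ^ (s + 2) ≤ f x then 64 else w (f x)) ≤ g := by
    rw [hg, le_div_iff₀ hkQ]
    have h1 : (k : ℝ) * ∑ x ∈ T, (C x : ℝ) ≤ G := by exact_mod_cast hT4
    have h2 : (∑ x ∈ T, (if 2 ^ (s + 2) ≤ f x then 64 else w (f x))) * Q ≤
        ∑ x ∈ T, (C x : ℝ) := by
      rw [Finset.sum_mul]
      refine Finset.sum_le_sum fun x _ => ?_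
      by_cases hx : 2 ^ (s + 2) ≤ f x
      · have h3 : C x = ⌈64 * Q⌉₊ := if_pos hx
        rw [if_pos hx, h3]
        exact Nat.le_ceil _
      · have h3 : C x = ⌈Q * w (f x)⌉₊ := if_neg hx
        rw [if_neg hx, h3, mul_comm]
        exact Nat.le_ceil _
    calc _ = (k : ℝ) * ((∑ x ∈ T, (if 2 ^ (s + 2) ≤ f x then 64 else w (f x))) * Q) := by ring
      _ ≤ (k : ℝ) * ∑ x ∈ T, (C x : ℝ) := mul_le_mul_of_nonneg_left h2 hk0.le
      _ ≤ _ := h1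
  have hCt : (Ct : ℝ) ≤ 128 * Q := by
    have : (Ct : ℝ) < 64 * Q + 1 := Nat.ceil_lt_add_one (by positivity)
    linarith
  have hc0 : ∀ l, 1 ≤ l → l ≤ s → Q * cm w j l ≤ (c0 l : ℝ) ∧ (c0 l : ℝ) ≤ 2 * (Q * cm w j l) := by
    intro l h1 h2
    have h3 : c0 l = ⌈Q * cm w j l⌉₊ := if_neg (by omega)
    rw [h3]
    refine ⟨Nat.le_ceil _, ?_⟩
    have h4 : (⌈Q * cm w j l⌉₊ : ℝ) < Q * cm w j l + 1 :=
      Nat.ceil_lt_add_one (mul_pos hQ (hcmp l h1 h2)).le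
    have h5 := hQc l h1 h2
    linarith
  have hg1 : g ≤ 2 ^ 10 * k := by
    rw [hg, div_le_iff₀ hkQ]
    have h1 : (G : ℝ) ≤ 8 * Ct * (n * k) := by exact_mod_cast hT5
    have h2 : (n : ℝ) ≤ k := by exact_mod_cast hnk
    calc (G : ℝ) ≤ 8 * Ct * (n * k) := h1
      _ ≤ 8 * (128 * Q) * (k * k) := by gcongr
      _ = 2 ^ 10 * k * (k * Q) := by ring
  obtain ⟨E, hE1, hE2, hE3⟩ := exists_exp hg0
  have hEh : E ≤ h + 12 := by
    have hk1 : (1 : ℝ) ≤ k := by exact_mod_cast (by omega : 1 ≤ k)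
    have h1 : (2 : ℝ) ^ E ≤ 2 ^ (h + 12) := by
      have h2 : (k : ℝ) ≤ 2 ^ h := by exact_mod_cast hkh
      calc (2 : ℝ) ^ E ≤ 2 * (g + 2) := hE3
        _ ≤ 2 ^ 12 * k := by linarith
        _ ≤ 2 ^ 12 * 2 ^ h := by gcongr
        _ = 2 ^ (h + 12) := by rw [pow_add]; ring
    exact (pow_le_pow_iff_right₀ (by norm_num : (1 : ℝ) < 2)).mp h1
  let e : ℕ → ℕ := fun l => if l = 0 then h else 3 * (s - l) + E
  have he : ∀ l, 1 ≤ l → e l = 3 * (s - l) + E := fun l hl => if_neg (by omega)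
  have hmain := hT6 e (if_pos rfl) (by
    intro l h1 h2
    rw [he l h1]
    refine ⟨by omega, by omega, ?_⟩
    have hc := (hc0 l h1 h2).1
    have hc' : 0 < (c0 l : ℝ) := lt_of_lt_of_le (mul_pos hQ (hcmp l h1 h2)) hc
    have h3 : (G : ℝ) + 2 * k * c0 l ≤ 2 ^ (3 * (s - l) + E) * (k * c0 l) := by
      have h4 : g * Q ≤ 8 ^ (s - l) * g * c0 l := by
        calc g * Q = g * Q * 1 := by ring
          _ ≤ g * Q * (8 ^ (s - l) * cm w j l) :=
              mul_le_mul_of_nonneg_left (hcm l h1 h2).1 (by positivity)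
          _ = 8 ^ (s - l) * g * (Q * cm w j l) := by ring
          _ ≤ _ := mul_le_mul_of_nonneg_left hc (by positivity)
      have h5 : (1 : ℝ) ≤ 8 ^ (s - l) := one_le_pow₀ (by norm_num)
      have h6 : (2 : ℝ) ^ (3 * (s - l) + E) = 8 ^ (s - l) * 2 ^ E := by
        rw [pow_add, pow_mul]
        norm_num
      rw [h6, hGg]
      calc g * (k * Q) + 2 * k * c0 l = k * (g * Q) + 2 * k * c0 l := by ring
        _ ≤ k * (8 ^ (s - l) * g * c0 l) + 8 ^ (s - l) * (2 * k * c0 l) := by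
            apply add_le_add (mul_le_mul_of_nonneg_left h4 hk0.le)
            exact le_mul_of_one_le_left (by positivity) h5
        _ = 8 ^ (s - l) * (g + 2) * (k * c0 l) := by ring
        _ ≤ 8 ^ (s - l) * 2 ^ E * (k * c0 l) := by gcongr
    exact_mod_cast h3)
  have hmain' : (G : ℝ) ≤ 8 * (∑ l ∈ range s, 2 * (c0 (l + 1) : ℝ) *
      (2 ^ 33 * e l * k * 2 ^ (s - l)) + Ct * (2 ^ 33 * e s * k)) := by
    exact_mod_cast hmain
  have hes : (e s : ℝ) = E := by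
    rw [he s hs]
    simp
  have h1 : g ≤ 2 ^ 38 * (∑ l ∈ range s, cm w j (l + 1) * e l * 2 ^ (s - l) + 32 * E) := by
    have h2 : ∑ l ∈ range s, 2 * (c0 (l + 1) : ℝ) * (2 ^ 33 * e l * k * 2 ^ (s - l)) ≤
        ∑ l ∈ range s, (2 ^ 35 * (k * Q)) * (cm w j (l + 1) * e l * 2 ^ (s - l)) := by
      refine Finset.sum_le_sum fun l hl => ?_
      have hl' := mem_range.mp hl
      have h3 := (hc0 (l + 1) (by omega) (by omega)).2
      calc 2 * (c0 (l + 1) : ℝ) * (2 ^ 33 * e l * k * 2 ^ (s - l))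
          ≤ 2 * (2 * (Q * cm w j (l + 1))) * (2 ^ 33 * e l * k * 2 ^ (s - l)) := by gcongr
        _ = _ := by ring
    rw [← Finset.mul_sum] at h2
    have h4 : (Ct : ℝ) * (2 ^ 33 * e s * k) ≤ 128 * Q * (2 ^ 33 * E * k) := by
      rw [hes]
      gcongr
    have h5 : g * (k * Q) ≤
        2 ^ 38 * (∑ l ∈ range s, cm w j (l + 1) * e l * 2 ^ (s - l) + 32 * E) * (k * Q) := by
      rw [← hGg]
      refine hmain'.trans ?_
      have : 8 * (∑ l ∈ range s, 2 * (c0 (l + 1) : ℝ) * (2 ^ 33 * e l * k * 2 ^ (s - l)) +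
          Ct * (2 ^ 33 * e s * k)) ≤ 8 * (2 ^ 35 * (k * Q) *
            ∑ l ∈ range s, cm w j (l + 1) * e l * 2 ^ (s - l) + 128 * Q * (2 ^ 33 * E * k)) := by
        linarith
      refine this.trans (le_of_eq ?_)
      ring
    exact le_of_mul_le_mul_right h5 hkQ
  have hABS' := hABS s E (cm w j) g hg0
    (fun l h1 h2 => ⟨(hcmp l h1 h2).le, (hcm l h1 h2).2⟩) hE3
  have hsplit : ∀ F : ℕ → ℝ, ∑ l ∈ range s, F l = F 0 + ∑ l ∈ Ico 1 s, F l := by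
    intro F
    rw [Finset.range_eq_Ico, Finset.sum_eq_sum_Ico_succ_bot (by omega : 0 < s)]
  have hR : ∑ l ∈ Icc 1 s, 2 ^ (s - l) * ((s - l + 1 : ℕ) : ℝ) * cm w j l =
      2 ^ (s - 1) * (s : ℝ) * cm w j 1 +
        ∑ l ∈ Ico 1 s, 2 ^ (s - (l + 1)) * ((s - (l + 1) + 1 : ℕ) : ℝ) * cm w j (l + 1) := by
    have h2 : Icc 1 s = Ico (0 + 1) (s + 1) := by
      ext x
      simp only [mem_Icc, mem_Ico]
      omega
    rw [h2, ← Finset.sum_Ico_add' (fun l => 2 ^ (s - l) * ((s - l + 1 : ℕ) : ℝ) * cm w j l) 0 s 1,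
      ← Finset.range_eq_Ico, hsplit]
    have h3 : s - (0 + 1) + 1 = s := by omega
    rw [h3]
  have he0 : e 0 = h := if_pos rfl
  rw [hsplit, he0, Nat.sub_zero] at h1
  have h2 : ∑ l ∈ Ico 1 s, cm w j (l + 1) * e l * 2 ^ (s - l) =
      3 * ∑ l ∈ Ico 1 s, ((s - l : ℕ) : ℝ) * cm w j (l + 1) * 2 ^ (s - l) +
        ∑ l ∈ Ico 1 s, cm w j (l + 1) * E * 2 ^ (s - l) := by
    rw [Finset.mul_sum, ← Finset.sum_add_distrib]
    refine Finset.sum_congr rfl fun l hl => ?_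
    rw [he l (mem_Ico.mp hl).1]
    push_cast
    ring
  have h3 : ∑ l ∈ Ico 1 s, 4 * ((s - l : ℕ) : ℝ) * cm w j (l + 1) * 2 ^ (s - l) =
      4 * ∑ l ∈ Ico 1 s, ((s - l : ℕ) : ℝ) * cm w j (l + 1) * 2 ^ (s - l) := by
    rw [Finset.mul_sum]
    refine Finset.sum_congr rfl fun l _ => ?_
    ring
  have h4 : ∑ l ∈ Ico 1 s, ((s - l : ℕ) : ℝ) * cm w j (l + 1) * 2 ^ (s - l) =
      2 * ∑ l ∈ Ico 1 s, 2 ^ (s - (l + 1)) * ((s - (l + 1) + 1 : ℕ) : ℝ) * cm w j (l + 1) := by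
    rw [Finset.mul_sum]
    refine Finset.sum_congr rfl fun l hl => ?_
    have hl' := mem_Ico.mp hl
    have e1 : s - (l + 1) + 1 = s - l := by omega
    have e2 : (2 : ℝ) ^ (s - l) = 2 * 2 ^ (s - (l + 1)) := by
      rw [← pow_succ', e1]
    rw [e1, e2]
    ring
  have h5 : 0 ≤ ∑ l ∈ Ico 1 s, 2 ^ (s - (l + 1)) * ((s - (l + 1) + 1 : ℕ) : ℝ) *
      cm w j (l + 1) := by
    refine Finset.sum_nonneg fun l hl => ?_
    have hl' := mem_Ico.mp hl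
    have := (hcmp (l + 1) (by omega) (by omega)).le
    positivity
  have h6 : cm w j (0 + 1) * h * 2 ^ s ≤ 2 ^ 8 * (2 ^ (s - 1) * (s : ℝ) * cm w j 1) := by
    have h7 := (hcmp 1 le_rfl hs).le
    have h8 : (h : ℝ) ≤ 128 * s := by exact_mod_cast hhs
    have h9 : (2 : ℝ) ^ s = 2 * 2 ^ (s - 1) := by
      rw [← pow_succ']
      congr 1
      omega
    rw [h9, zero_add]
    calc cm w j 1 * h * (2 * 2 ^ (s - 1)) ≤ cm w j 1 * (128 * s) * (2 * 2 ^ (s - 1)) := by gcongr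
      _ = _ := by ring
  rw [hR]
  rw [h3] at hABS'
  rw [h2] at h1
  rw [h4] at h1 hABS'
  refine hcost.trans ?_
  set A := ∑ l ∈ Ico 1 s, 2 ^ (s - (l + 1)) * ((s - (l + 1) + 1 : ℕ) : ℝ) * cm w j (l + 1)
  set B := ∑ l ∈ Ico 1 s, cm w j (l + 1) * (E : ℝ) * 2 ^ (s - l)
  set D := 2 ^ (s - 1) * (s : ℝ) * cm w j 1
  linarith

end Pool.Agent.Helper9.MT3
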